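import Mathlib

set_option autoImplicit false

namespace Pool.Agent.H.MP_9fb0d9_nt

open Polynomial IntermediateField

variable {K : Type} [Field K]

/-- an irreducible monic rational polynomial stays irreducible over a fraction field of Q[T] -/
theorem irr_frac {E : Type} [Field E] [Algebra K[X] E] [IsFractionRing K[X] E]
    (p : K[X]) (hm : p.Monic) (hp : Irreducible p) :
    Irreducible ((p.map C).map (algebraMap K[X] E)) := by
  have h1 : Prime (C p : K[X][X]) := (Polynomial.prime_C_iff).2 hp.prime
  have h2 : Irreducible (p.map (C : K →+* K[X])) := by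
    rw [← Polynomial.Bivariate.swap_C]
    exact (MulEquiv.irreducible_iff (Polynomial.Bivariate.swap (R := K))).2 h1.irreducible
  exact ((hm.map C).irreducible_iff_irreducible_map_fraction_map (K := E)).1 h2

theorem irr_kummer (N : ℕ) (hN : N ≠ 0) :
    Irreducible (X ^ N - C ((RatFunc.X : RatFunc K) - 1) : (RatFunc K)[X]) := by
  have h1 : Irreducible (X - C (X ^ N + 1) : K[X][X]) := irreducible_X_sub_C _
  have h2 : Irreducible (-(X - C (X ^ N + 1)) : K[X][X]) := by
    have : Associated (X - C (X ^ N + 1) : K[X][X]) (-(X - C (X ^ N + 1))) :=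
      ⟨-1, by simp⟩
    exact this.irreducible h1
  have h3 : Polynomial.Bivariate.swap (R := K) (-(X - C (X ^ N + 1)) : K[X][X])
      = X ^ N - C (X - 1) := by
    rw [map_neg, map_sub, Polynomial.Bivariate.swap_Y, Polynomial.Bivariate.swap_C]
    simp only [Polynomial.map_add, Polynomial.map_pow, map_X, Polynomial.map_one, map_sub, map_one]
    ring
  have h4 : Irreducible (X ^ N - C (X - 1) : K[X][X]) := by
    rw [← h3]
    exact (MulEquiv.irreducible_iff (Polynomial.Bivariate.swap (R := K))).2 h2
  have hm : (X ^ N - C (X - 1) : K[X][X]).Monic := monic_X_pow_sub_C _ hN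
  have h5 := (hm.irreducible_iff_irreducible_map_fraction_map (K := RatFunc K)).1 h4
  simpa using h5

theorem iter_eq (n : ℕ) :
    (((X - 1) ^ 2 + 1 : K[X]).comp)^[n] X = (X - 1) ^ (2 ^ n) + 1 := by
  induction n with
  | zero => simp
  | succ n ih =>
    rw [Function.iterate_succ_apply', ih]
    simp only [add_comp, pow_comp, sub_comp, X_comp, one_comp]
    ring

theorem upper [CharZero K] (n : ℕ) (p : K[X]) (hp : p = (X - 1) ^ (2 ^ n) + 1) (S : Type) [Field S]
    [Algebra K S] [IsSplittingField K S p] :
    Module.finrank K S ≤ 2 ^ n := by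
  have : FiniteDimensional K S := IsSplittingField.finiteDimensional S p
  have : CharZero S := charZero_of_injective_algebraMap (algebraMap K S).injective
  have hdeg : p.natDegree = 2 ^ n := by
    have h1 : ((X - 1 : K[X]) ^ (2 ^ n)).natDegree = 2 ^ n := by
      have : (X - 1 : K[X]) = X - C 1 := by simp
      rw [this, natDegree_pow, natDegree_X_sub_C, mul_one]
    rw [hp, natDegree_add_eq_left_of_natDegree_lt, h1]
    rw [h1, natDegree_one]; positivity
  have hp0 : p ≠ 0 := by
    intro h; rw [h] at hdeg; simp at hdeg; exact absurd hdeg.symm (by positivity)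
  have hs := IsSplittingField.splits S p
  have hroot : ∀ b : S, aeval b p = 0 → (b - 1) ^ (2 ^ n) = -1 := by
    intro b hb
    rw [hp] at hb
    simp only [map_add, map_pow, map_sub, aeval_X, map_one] at hb
    exact eq_neg_of_add_eq_zero_left hb
  obtain ⟨a, ha⟩ : ∃ a : S, aeval a p = 0 := by
    have hd : (p.map (algebraMap K S)).degree ≠ 0 := by
      rw [degree_map, degree_eq_natDegree hp0, hdeg]
      exact_mod_cast (by positivity : (2 ^ n : ℕ) ≠ 0)
    obtain ⟨a, ha⟩ := hs.exists_eval_eq_zero hd
    exact ⟨a, by rwa [eval_map_algebraMap] at ha⟩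
  have haw := hroot a ha
  have hprim : IsPrimitiveRoot (a - 1) (2 ^ (n + 1)) := by
    have h1 : ¬ (a - 1) ^ (2 ^ n) = 1 := by
      rw [haw]; intro h
      have : (2 : S) = 0 := by linear_combination -h
      exact two_ne_zero this
    have h2 : (a - 1) ^ (2 ^ (n + 1)) = 1 := by
      rw [pow_succ, pow_mul, haw]; norm_num
    have := orderOf_eq_prime_pow (p := 2) h1 h2
    rw [← this]; exact IsPrimitiveRoot.orderOf _
  have htop : (K⟮a⟯ : IntermediateField K S) = ⊤ := by
    have h1 : Algebra.adjoin K (p.rootSet S) = ⊤ := IsSplittingField.adjoin_rootSet S p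
    apply IntermediateField.toSubalgebra_injective
    rw [IntermediateField.top_toSubalgebra, eq_top_iff, ← h1]
    apply Algebra.adjoin_le
    intro b hb
    have hb' := hroot b (aeval_eq_zero_of_mem_rootSet hb)
    have h2 : (b - 1) ^ (2 ^ (n + 1)) = 1 := by
      rw [pow_succ, pow_mul, hb']; norm_num
    obtain ⟨i, -, hi⟩ := hprim.eq_pow_of_pow_eq_one h2
    have h3 : b = (a - 1) ^ i + 1 := by rw [hi]; ring
    have ha' : a ∈ (K⟮a⟯ : IntermediateField K S) := mem_adjoin_simple_self K a
    show b ∈ (K⟮a⟯ : IntermediateField K S)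
    rw [h3]
    exact add_mem (pow_mem (sub_mem ha' (one_mem _)) _) (one_mem _)
  have hint : IsIntegral K a := Algebra.IsIntegral.isIntegral a
  have h4 : Module.finrank K S = (minpoly K a).natDegree := by
    rw [← IntermediateField.adjoin.finrank hint, htop, IntermediateField.finrank_top']
  rw [h4, ← hdeg]
  exact natDegree_le_of_dvd (minpoly.dvd K a ha) hp0

theorem lower [CharZero K] (hirr : ∀ N : ℕ, 0 < N → Irreducible (cyclotomic N K)) (n : ℕ) (P : (RatFunc K)[X])
    (hP : P = (X - 1) ^ (2 ^ (n + 1)) + 1 - C (RatFunc.X : RatFunc K)) (L : Type) [Field L]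
    [Algebra (RatFunc K) L] [IsSplittingField (RatFunc K) L P] :
    2 ^ (n + 1) * 2 ^ n ≤ Module.finrank (RatFunc K) L := by
  set N := 2 ^ (n + 1) with hN
  have hN0 : N ≠ 0 := by positivity
  have : FiniteDimensional (RatFunc K) L := IsSplittingField.finiteDimensional L P
  have : CharZero L := charZero_of_injective_algebraMap (algebraMap (RatFunc K) L).injective
  have hs := IsSplittingField.splits L P
  set Q : (RatFunc K)[X] := X ^ N - C ((RatFunc.X : RatFunc K) - 1) with hQ
  have hQP : Q = P.comp (X + C 1) := by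
    rw [hQ, hP]
    simp only [add_comp, pow_comp, sub_comp, X_comp, one_comp, C_comp, map_sub, map_one]
    ring
  have hQs : (Q.map (algebraMap (RatFunc K) L)).Splits := by
    rw [hQP, Polynomial.map_comp]
    simp only [Polynomial.map_add, map_X, map_C]
    exact hs.comp_X_add_C _
  have ht1 : (RatFunc.X : RatFunc K) - 1 ≠ 0 := by
    intro h
    have h2 : (RatFunc.X : RatFunc K) = 1 := by linear_combination h
    exact RatFunc.transcendental_X (K := K) (by rw [h2]; exact isAlgebraic_one)
  have hQm : Q.Monic := monic_X_pow_sub_C _ hN0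
  have hQd : Q.natDegree = N := natDegree_X_pow_sub_C
  have hQi : Irreducible Q := irr_kummer N hN0
  obtain ⟨y, hy⟩ : ∃ y : L, aeval y Q = 0 := by
    have hd : (Q.map (algebraMap (RatFunc K) L)).degree ≠ 0 := by
      rw [degree_map, degree_eq_natDegree hQm.ne_zero, hQd]
      exact_mod_cast hN0
    obtain ⟨a, ha⟩ := hQs.exists_eval_eq_zero hd
    exact ⟨a, by rwa [eval_map_algebraMap] at ha⟩
  have hyN : y ^ N + 1 = algebraMap (RatFunc K) L RatFunc.X := by
    rw [hQ] at hy
    simp only [map_sub, map_pow, aeval_X, aeval_C, map_one] at hy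
    linear_combination hy
  obtain ⟨z, hz⟩ : ∃ z : L, eval z (cyclotomic N L) = 0 := by
    have h1 := splits_X_pow_sub_one_of_X_pow_sub_C (algebraMap (RatFunc K) L) N ht1 hQs
    simp only [Polynomial.map_sub, Polynomial.map_pow, map_X, Polynomial.map_one] at h1
    have h2 : (cyclotomic N L).Splits :=
      h1.of_dvd (by simpa using X_pow_sub_C_ne_zero (Nat.pos_of_ne_zero hN0) (1 : L))
        (cyclotomic.dvd_X_pow_sub_one N L)
    apply h2.exists_eval_eq_zero
    rw [degree_cyclotomic]
    exact_mod_cast (Nat.totient_pos.2 (Nat.pos_of_ne_zero hN0)).ne'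
  have hyint : IsIntegral (RatFunc K) y := Algebra.IsIntegral.isIntegral y
  have hmin : minpoly (RatFunc K) y = Q := (minpoly.eq_of_irreducible_of_monic hQi hy hQm).symm
  set E : IntermediateField (RatFunc K) L := (RatFunc K)⟮y⟯ with hE
  have hE1 : Module.finrank (RatFunc K) E = N := by
    rw [hE, IntermediateField.adjoin.finrank hyint, hmin, hQd]
  have hyE : y ∈ E := mem_adjoin_simple_self _ y
  -- ring hom version of evaluation
  let φ : K →+* L := (algebraMap (RatFunc K) L).comp ((algebraMap K[X] (RatFunc K)).comp C)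
  let ψ : K[X] →+* L := eval₂RingHom φ y
  have hψX : ψ X = y := by simp [ψ]
  have hψC : ∀ q : K, ψ (C q) = φ q := by intro q; simp [ψ]
  have hcomp : ∀ p : K[X], ψ (p.comp (X ^ N + 1)) =
      algebraMap (RatFunc K) L (algebraMap K[X] (RatFunc K) p) := by
    intro p
    have : (ψ.comp (compRingHom (X ^ N + 1 : K[X]))) =
        (algebraMap (RatFunc K) L).comp (algebraMap K[X] (RatFunc K)) := by
      apply Polynomial.ringHom_ext
      · intro a
        simp only [RingHom.comp_apply, coe_compRingHom_apply, C_comp, hψC]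
        rfl
      · simp [hψX, hyN]
    exact RingHom.congr_fun this p
  have hinj : Function.Injective ψ := by
    rw [injective_iff_map_eq_zero]
    intro p hp
    by_contra hp0
    let _ : Algebra K L := φ.toAlgebra
    have halg : IsAlgebraic K y := ⟨p, hp0, hp⟩
    have h2 : IsAlgebraic K (y ^ N + 1) := (halg.pow N).add isAlgebraic_one
    obtain ⟨q, hq0, hq⟩ := h2
    have h3 : ψ (q.comp (X ^ N + 1)) = 0 := by
      rw [aeval_def] at hq
      simp only [ψ, coe_eval₂RingHom, eval₂_comp, eval₂_add, eval₂_pow, eval₂_X, eval₂_one]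
      exact hq
    rw [hcomp] at h3
    exact hq0 ((IsFractionRing.injective K[X] (RatFunc K))
      (by rw [map_zero]; exact (algebraMap (RatFunc K) L).injective (by rw [h3, map_zero])))
  have hψE : ∀ p : K[X], ψ p ∈ E := by
    intro p
    induction p using Polynomial.induction_on with
    | C a => rw [hψC]; exact E.algebraMap_mem _
    | add p q hp hq => rw [map_add]; exact add_mem hp hq
    | monomial k a h => rw [pow_succ, ← mul_assoc, map_mul, hψX]; exact mul_mem h hyE
  let ψE : K[X] →+* E := ψ.codRestrict E hψE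
  let _ : Algebra K[X] E := ψE.toAlgebra
  have halgE : ∀ p : K[X], ((algebraMap K[X] E p : E) : L) = ψ p := fun p => rfl
  have : FaithfulSMul K[X] E := by
    rw [faithfulSMul_iff_algebraMap_injective]
    intro p q h
    apply hinj
    rw [← halgE, ← halgE, h]
  have hfrac : ∀ w ∈ E, ∃ p q : K[X], w = ψ p / ψ q := by
    let T : Subfield L := Subfield.closure (Set.range ψ)
    have hT : ∀ w ∈ T, ∃ p q : K[X], w = ψ p / ψ q := by
      intro w hw
      obtain ⟨a, ha, b, hb, rfl⟩ := Subfield.mem_closure_iff.1 hw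
      have hr : Subring.closure (Set.range ψ) = ψ.range := by
        rw [← RingHom.coe_range, Subring.closure_eq]
      rw [hr] at ha hb
      obtain ⟨p, rfl⟩ := ha
      obtain ⟨q, rfl⟩ := hb
      exact ⟨p, q, rfl⟩
    have hmem : ∀ p, ψ p ∈ T := fun p => Subfield.subset_closure ⟨p, rfl⟩
    intro w hw
    apply hT
    have hle : E.toSubfield ≤ T := by
      rw [hE, IntermediateField.adjoin_toSubfield, Subfield.closure_le]
      rintro v (⟨r, rfl⟩ | hv)
      · induction r using RatFunc.induction_on with
        | f p q hq =>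
          rw [map_div₀, ← hcomp, ← hcomp]
          exact div_mem (hmem _) (hmem _)
      · rw [Set.mem_singleton_iff] at hv
        rw [hv, ← hψX]; exact hmem _
    exact hle hw
  have : IsFractionRing K[X] E := by
    apply IsFractionRing.of_field
    intro w
    obtain ⟨p, q, h⟩ := hfrac w.1 w.2
    refine ⟨p, q, Subtype.ext ?_⟩
    rw [h]; rfl
  have hcy : Irreducible (cyclotomic N E) := by
    have := irr_frac (E := E) (cyclotomic N K) (cyclotomic.monic N K)
      (hirr N (Nat.pos_of_ne_zero hN0))
    rwa [map_cyclotomic, map_cyclotomic] at this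
  have hz' : aeval z (cyclotomic N E) = 0 := by
    rw [← eval_map_algebraMap, map_cyclotomic]; exact hz
  have hmz : minpoly E z = cyclotomic N E :=
    (minpoly.eq_of_irreducible_of_monic hcy hz' (cyclotomic.monic N E)).symm
  have hE2 : 2 ^ n ≤ Module.finrank E L := by
    have h1 := minpoly.natDegree_le (A := E) z
    rw [hmz, natDegree_cyclotomic, hN, Nat.totient_prime_pow_succ Nat.prime_two] at h1
    simpa using h1
  rw [← Module.finrank_mul_finrank (RatFunc K) E L, hE1]
  exact Nat.mul_le_mul_left _ hE2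

theorem main [CharZero K] (hirr : ∀ N : ℕ, 0 < N → Irreducible (cyclotomic N K)) (M : ℕ) : ∃ n : ℕ, 1 ≤ n ∧
    M * Module.finrank K (SplittingField ((((X - 1) ^ 2 + 1 : K[X]).comp)^[n] X)) <
      Module.finrank (RatFunc K)
        (SplittingField
          (Polynomial.map (algebraMap K (RatFunc K)) ((((X - 1) ^ 2 + 1 : K[X]).comp)^[n] X)
            - C (RatFunc.X : RatFunc K))) := by
  refine ⟨M + 1, by omega, ?_⟩
  have h1 := upper (M + 1) _ (iter_eq (K := K) (M + 1))
    (SplittingField ((((X - 1) ^ 2 + 1 : K[X]).comp)^[M + 1] X))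
  have h2 := lower hirr M
    (Polynomial.map (algebraMap K (RatFunc K)) ((((X - 1) ^ 2 + 1 : K[X]).comp)^[M + 1] X)
            - C (RatFunc.X : RatFunc K)) (by rw [iter_eq]; simp)
    (SplittingField
          (Polynomial.map (algebraMap K (RatFunc K)) ((((X - 1) ^ 2 + 1 : K[X]).comp)^[M + 1] X)
            - C (RatFunc.X : RatFunc K)))
  have h3 : M < 2 ^ M := Nat.lt_two_pow_self
  calc _ ≤ M * 2 ^ (M + 1) := Nat.mul_le_mul_left _ h1
    _ < 2 ^ M * 2 ^ (M + 1) := Nat.mul_lt_mul_of_pos_right h3 (by positivity)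
    _ = 2 ^ (M + 1) * 2 ^ M := mul_comm _ _
    _ ≤ _ := h2

end Pool.Agent.H.MP_9fb0d9_nt
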